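import Mathlib
import Pool.Agent.Lib.helper12.TreeQC

set_option autoImplicit false

namespace Pool.Agent.Results.MP_77f213_al.QTwo

/-- `X` is a geodesic metric space. -/
def Geodesic (X : Type) [MetricSpace X] : Prop :=
  ∀ x y : X, ∃ γ : ℝ → X, γ 0 = x ∧ γ (dist x y) = y ∧
    ∀ s ∈ Set.Icc (0:ℝ) (dist x y), ∀ t ∈ Set.Icc (0:ℝ) (dist x y), dist (γ s) (γ t) = |s - t|

/-- Gromov's four-point condition. -/
def Hyperbolic (X : Type) [MetricSpace X] : Prop :=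
  ∃ δ : ℝ, ∀ x y z w : X,
    min ((dist x w + dist y w - dist x y) / 2) ((dist y w + dist z w - dist y z) / 2) - δ
      ≤ (dist x w + dist z w - dist x z) / 2

/-- A geometric action: `X` is nonempty, proper and geodesic, and the action is isometric,
properly discontinuous and cocompact. -/
def Geometric (G X : Type) [Group G] [MetricSpace X] [MulAction G X] : Prop :=
  Nonempty X ∧ ProperSpace X ∧ Geodesic X ∧ IsIsometricSMul G X ∧ ProperlyDiscontinuousSMul G X ∧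
    ∃ K : Set X, IsCompact K ∧ ∀ x : X, ∃ g : G, g • x ∈ K

/-- `f` is an `(L, C)`-quasi-isometry. -/
def IsQI {X₀ X₁ : Type} [MetricSpace X₀] [MetricSpace X₁] (L C : ℝ) (f : X₀ → X₁) : Prop :=
  (∀ x y : X₀, dist x y / L - C ≤ dist (f x) (f y) ∧ dist (f x) (f y) ≤ L * dist x y + C) ∧
    ∀ z : X₁, ∃ x : X₀, dist (f x) z ≤ C

open Pool.Agent.Lib.helper12.TreeQ in
theorem result : ∃ (Γ X₀ X₁ : Type) (_ : Group Γ) (_ : MetricSpace X₀) (_ : MetricSpace X₁)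
    (_ : MulAction Γ X₀) (_ : MulAction Γ X₁),
    Group.FG Γ ∧ Geometric Γ X₀ ∧ Geometric Γ X₁ ∧ Hyperbolic X₀ ∧ Hyperbolic X₁ ∧
    IsGLB {L : ℝ | 1 ≤ L ∧ ∃ (f : X₀ → X₁) (C : ℝ), 0 ≤ C ∧ IsQI L C f} 1 ∧
    ¬ ∃ (f : X₀ → X₁) (C : ℝ), IsQI 1 C f := by
  have a0 := act (W := W0) ((MonoidHom.fst _ _).comp G.subtype) fun _ => rfl
  have a1 := act (W := W1) ((MonoidHom.snd _ _).comp G.subtype) fun _ => rfl
  refine ⟨G, X W0, X W1, inferInstance, inferInstance, inferInstance, _, _, G_fg,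
    ⟨⟨o⟩, inferInstance, geod, a0⟩, ⟨⟨o⟩, inferInstance, geod, a1⟩, ⟨0, hyp⟩, ⟨0, hyp⟩,
    ⟨fun L h => h.1, fun b hb => le_of_forall_gt_imp_ge_of_dense fun M h => hb ⟨h.le, exQI M h⟩⟩,
    fun ⟨f, C, h⟩ => noQI f C h.1 h.2⟩

end Pool.Agent.Results.MP_77f213_al.QTwo
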